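import Mathlib
import Pool.Agent.Run7.h53.FW.Pre

/-!
# MP_f3dc73_nt: a linear relation between multiple zeta values with REAL coefficients holds for finitely many words only

Let `U` be a finite set of words in positive integers and `c_u`, `u ∈ U`, real numbers, not all zero, for example elements
of the algebra of multiple zeta values. Then

* `∑ c_u ζ(u s) = 0` for only finitely many words `s ≠ ∅` (all `u s` admissible);
* `∑ c_u ζ(p u) = 0` for only finitely many words `p ≠ ∅` with letters at least `2`.

The same holds for all `c` with values in a finite set `C` of real numbers at once, for example `C` = the values at given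
multiple zeta values of the integer polynomials of bounded degree and height. In the conjectural description of the algebra
of multiple zeta values the elements `ζ(u s)` are rather independent over the algebra, so such a relation is an exception.

Proof. The letters of `s` belong to the small summation variables. `∑ c_u ζ(u s)` is the sum over `n` of the weights
`H_t(n) (n + 1) ^ (-a) > 0`, `n ≥ length t`, `s = a t`, times `F(n + 1) = ∑ c_u T_u(n + 1)`, `T_u` the tail of `ζ(u)`.
The tails are independent modulo functions which decrease faster than all powers (`tail_flat`) and have asymptotic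
expansions, so the sign of `F` is constant from some `n0` on, and there is no zero with `length s ≥ n0`. For a given length of
`t` the first term with `F(n + 1) ≠ 0` dominates when `a` is large, uniformly in `t`, as `H_t(n) ≤ n ^ k H_t(k)`. So `a` is
bounded; move `a` to the words of `U` and use induction. For the first parts `p = q b` the weights are
`T_q(n + 1) (n + 1) ^ (-b)`, and `(x + 1 + length q) T_q(x + 1) ≤ (x + 1) T_q(x)` when the letters of `q` are at least `2`
(`T_ratio`), so that the first nonzero term dominates when `q` is long.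
-/

set_option autoImplicit false

namespace Pool.Agent.Results.MP_f3dc73_nt.FinitelyManyWords

/-- the multiple zeta value of the list `l`, the first entry belongs to the largest summation variable:
`mzv [a_1, ..., a_m]` is `ζ(a_m, ..., a_1)` in the notation of the problem -/
noncomputable def mzv (l : List ℕ) : ℝ :=
  ∑' m : {m : Fin l.length → ℕ // StrictAnti m ∧ ∀ i, 0 < m i}, ∏ i, ((m.1 i : ℝ) ^ (l.get i))⁻¹

/-- positive entries, the first one (if there is one) is at least two -/
def Admissible (l : List ℕ) : Prop := (∀ x ∈ l, 1 ≤ x) ∧ ∀ x ∈ l.head?, 2 ≤ x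

lemma adm_iff (l : List ℕ) : Admissible l ↔ Pool.Agent.H447R2.MZ.Adm l := by
  unfold Admissible Pool.Agent.H447R2.MZ.Adm
  refine and_congr_right fun _ => ?_
  cases l with
  | nil => simp
  | cons x l =>
    constructor
    · intro h a t hat
      have := (List.cons.inj hat).1
      subst this
      exact h x (by simp)
    · intro h y hy
      have : x = y := by simpa using hy
      subst this
      exact h x l rfl

lemma mzv_eq {l : List ℕ} (hl : Pool.Agent.H447R2.MZ.Adm l) : mzv l = Pool.Agent.H447R2.MZ.val l := by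
  have h1 := Pool.Agent.H447R2.MZ.hasSum_val l.length l.get (by rw [List.ofFn_get]; exact hl)
  rw [List.ofFn_get] at h1
  exact h1.tsum_eq

/-- finitely many vectors of coefficients -/
lemma finite_coeff (U : Finset (List ℕ)) (C : Set ℝ) (hC : C.Finite) (P : (List ℕ → ℝ) → Set (List ℕ))
    (hP : ∀ c, (∃ u ∈ U, c u ≠ 0) → (P c).Finite)
    (hcg : ∀ c c', (∀ u ∈ U, c u = c' u) → P c ⊆ P c') :
    {s : List ℕ | ∃ c : List ℕ → ℝ, (∀ u ∈ U, c u ∈ C) ∧ (∃ u ∈ U, c u ≠ 0) ∧ s ∈ P c}.Finite := by
  classical
  haveI : Finite C := hC.to_subtype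
  set G : (U → C) → List ℕ → ℝ := fun g u => if h : u ∈ U then (g ⟨u, h⟩ : ℝ) else 0 with hG
  have h1 : {s : List ℕ | ∃ c : List ℕ → ℝ, (∀ u ∈ U, c u ∈ C) ∧ (∃ u ∈ U, c u ≠ 0) ∧ s ∈ P c} ⊆
      ⋃ g : {g : U → C // ∃ u ∈ U, G g u ≠ 0}, P (G g.1) := by
    rintro s ⟨c, hc, hne, hs⟩
    have hval : ∀ u ∈ U, c u = G (fun u => ⟨c u, hc u u.2⟩) u := by
      intro u hu
      rw [hG]
      simp only
      rw [dif_pos hu]
    refine Set.mem_iUnion.2 ⟨⟨fun u => ⟨c u, hc u u.2⟩, ?_⟩, hcg _ _ hval hs⟩
    obtain ⟨u, hu, h⟩ := hne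
    exact ⟨u, hu, by rw [← hval u hu]; exact h⟩
  exact (Set.finite_iUnion fun g => hP _ g.2).subset h1

/-- **Theorem.** Let `U` be a finite set of words and `C` a finite set of real numbers.
(1) For all but finitely many of the words `s ≠ ∅` with `u s` admissible for `u ∈ U`, the numbers `ζ(u s)`, `u ∈ U`, satisfy
no linear relation with coefficients in `C`, not all zero.
(2) The same for `ζ(p u)`, where `p ≠ ∅` is a word with letters at least `2` and the words in `U` have positive letters. -/
theorem result (U : Finset (List ℕ)) (C : Set ℝ) (hC : C.Finite) :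
    {s : List ℕ | s ≠ [] ∧ (∀ u ∈ U, Admissible (u ++ s)) ∧
      ∃ c : List ℕ → ℝ, (∀ u ∈ U, c u ∈ C) ∧ (∃ u ∈ U, c u ≠ 0) ∧
        ∑ u ∈ U, c u * mzv (u ++ s) = 0}.Finite ∧
    ((∀ u ∈ U, ∀ x ∈ u, 1 ≤ x) →
      {p : List ℕ | p ≠ [] ∧ (∀ x ∈ p, 2 ≤ x) ∧
        ∃ c : List ℕ → ℝ, (∀ u ∈ U, c u ∈ C) ∧ (∃ u ∈ U, c u ≠ 0) ∧
          ∑ u ∈ U, c u * mzv (p ++ u) = 0}.Finite) := by
  constructor
  · refine (finite_coeff U C hC (fun c => Run7.h53.VD.Zb U c)
      (fun c hc => Run7.h53.FW.suffix_finite U c hc) ?_).subset ?_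
    · rintro c c' hcc s ⟨h1, h2, h3⟩
      refine ⟨h1, h2, ?_⟩
      rw [← h3]
      exact Finset.sum_congr rfl fun u hu => by rw [hcc u hu]
    · rintro s ⟨h1, h2, c, h3, h4, h5⟩
      refine ⟨c, h3, h4, h1, fun u hu => (adm_iff _).1 (h2 u hu), ?_⟩
      rw [← h5]
      exact Finset.sum_congr rfl fun u hu => by rw [mzv_eq ((adm_iff _).1 (h2 u hu))]
  · intro hU
    refine (finite_coeff U C hC (fun c => Run7.h53.FW.Zp U c)
      (fun c hc => Run7.h53.FW.prefix_finite U c hU hc) ?_).subset ?_
    · rintro c c' hcc s ⟨h1, h2, h3⟩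
      refine ⟨h1, h2, ?_⟩
      rw [← h3]
      exact Finset.sum_congr rfl fun u hu => by rw [hcc u hu]
    · rintro s ⟨h1, h2, c, h3, h4, h5⟩
      refine ⟨c, h3, h4, h1, h2, ?_⟩
      rw [← h5]
      refine Finset.sum_congr rfl fun u hu => ?_
      obtain ⟨q, b, rfl⟩ : ∃ q b, s = q ++ [b] :=
        ⟨s.dropLast, s.getLast h1, (List.dropLast_append_getLast h1).symm⟩
      rw [mzv_eq]
      rw [List.append_assoc, List.singleton_append]
      exact Run7.h53.FW.adm_pre (fun x hx => h2 x (List.mem_append_left _ hx)) (h2 b (by simp))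
        (hU u hu)

end Pool.Agent.Results.MP_f3dc73_nt.FinitelyManyWords
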