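import Mathlib
import Pool.Agent.Run7.h53.TI.Coin2
import Pool.Agent.Run7.h867.HW.Lyn
import Pool.Agent.Run7.h867.HW.SZ

/-!
# A polynomial relation holds for few tuples of Lyndon words

By Brown the algebra of motivic multiple zeta values is a polynomial algebra, a set of free generators are the values at
the Lyndon words in the letters 3 < 2.  So the conjecture about the structure of the algebra of multiple zeta values
says that the multiple zeta values at the Lyndon words satisfy no homogeneous polynomial relation.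

We prove: a given nonzero polynomial `P`, with arbitrary real coefficients, vanishes for a proportion at most
`C deg(P) / √n` of the tuples of Lyndon words of weights `k_1, ..., k_N ≥ n` (`C` absolute), and for a proportion at most
`C deg(P) / (n √n)` of the tuples of all words in the letters 2, 3.  This holds for both orders of the letters and both
directions of reading.

Proof.  By helper53 (MP_56e040_nt.RareCoincidences) a real number is the value of a proportion at most `C n ^ (- 3 / 2)` of
the words of weight `n` in the letters 2 and 3.  At least the proportion `1 / (10000 n)` of the words are Lyndon words: the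
words `a ^ l t`, `a` the smaller letter and `b` the larger one, where `t` begins and ends with `b` and does not contain
`a ^ l`, are Lyndon words, and for `l` of the order `log n` most `t` do not contain `a ^ l`.  The theorem follows by a form
of the lemma of Schwartz and Zippel for functions with few coincidences.
-/

set_option autoImplicit false

namespace Pool.Agent.Results.MP_f3dc73_nt.PolynomialsAtLyndonWords

open Finset Filter Topology

/-- the sum of `∏_j 1 / m_j ^ k_j` over `m > m_1 > ... > m_r ≥ 1` (it is `1` for the empty index) -/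
noncomputable def trunc : List ℕ → ℕ → ℝ
  | [], _ => 1
  | a :: s, m => ∑ j ∈ Finset.Ico 1 m, 1 / (j : ℝ) ^ a * trunc s j

/-- the multiple zeta value of the index `k_1, ..., k_r`, the limit of the truncated sums; `k_1` belongs to the largest
variable -/
noncomputable def zeta (s : List ℕ) : ℝ := limUnder atTop (trunc s)

/-- the words of weight `n` in the letters 2 and 3 -/
def words (n : ℕ) : Set (List ℕ) := {w | (∀ a ∈ w, a = 2 ∨ a = 3) ∧ w.sum = n}

/-- Lyndon words for the order `r` of the letters: nonempty words which are smaller than all their proper nonempty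
suffixes, in the lexicographic order -/
def IsLyndon (r : ℕ → ℕ → Prop) (w : List ℕ) : Prop :=
  w ≠ [] ∧ ∀ x v : List ℕ, x ≠ [] → v ≠ [] → x ++ v = w → List.Lex r w v

/-- the words of weight `n` in the letters 2 and 3 which are Lyndon words for the order `r` of the letters, if they are
read from the left to the right (`rev = false`) or from the right to the left (`rev = true`) -/
def lyndon (r : ℕ → ℕ → Prop) (rev : Bool) (n : ℕ) : Set (List ℕ) :=
  {w ∈ words n | IsLyndon r (if rev then w.reverse else w)}

theorem trunc_same (s : List ℕ) : ∀ m, trunc s m = Run7.h867.MZ.tr s m := by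
  induction s with
  | nil => intro m; rfl
  | cons a s ih =>
    intro m
    rw [trunc, Run7.h867.MZ.tr]
    exact sum_congr rfl fun j _ => by rw [ih]

theorem zeta_same (s : List ℕ) : zeta s = Run7.h867.MZ.mz s := by
  have : trunc s = Run7.h867.MZ.tr s := funext (trunc_same s)
  rw [zeta, Run7.h867.MZ.mz, this]

theorem words_same (n : ℕ) : words n = (Run7.h867.HW.hw n : Set (List ℕ)) := by
  ext s
  rw [mem_coe, Run7.h867.HW.mem_hw]
  simp only [Run7.h867.HW.mem_D23]
  rfl

theorem H_same (s : List ℕ) : ∀ N, Pool.Agent.H447R2.MZ.H s N = Run7.h867.MZ.tr s (N + 1) := by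
  induction s with
  | nil => intro N; rw [Pool.Agent.H447R2.MZ.H_nil, Run7.h867.MZ.tr]
  | cons a s ih =>
    intro N
    rw [Pool.Agent.H447R2.MZ.H_cons, Run7.h867.MZ.tr, Finset.sum_Ico_eq_sum_range]
    refine sum_congr (by simp) fun j _ => ?_
    rw [ih, one_div, add_comm 1 j]

theorem hw_same (n : ℕ) : Run7.h53.TI.hw n = Run7.h867.HW.hw n := by
  ext s
  rw [Run7.h867.HW.mem_hw, Run7.h53.TI.mem_hw]
  simp only [Run7.h867.HW.mem_D23]

theorem adm_of {n : ℕ} (hn : 1 ≤ n) {s : List ℕ} (hs : s ∈ Run7.h867.HW.hw n) : s ∈ Run7.h867.MZ.adm n := by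
  obtain ⟨h1, h2⟩ := Run7.h867.HW.mem_hw.1 hs
  have h3 := Run7.h867.HW.len_hw hs
  have hne : s ≠ [] := by
    rintro rfl
    simp only [List.length_nil] at h3
    omega
  have h4 := Run7.h867.HW.mem_adm (fun a ha => Run7.h867.HW.two_le_D23 a (h1 a ha)) hne
  rw [h2] at h4
  exact h4

theorem val_same {n : ℕ} (hn : 1 ≤ n) {s : List ℕ} (hs : s ∈ Run7.h867.HW.hw n) :
    Pool.Agent.H447R2.MZ.val s = Run7.h867.MZ.mz s := by
  have h1 := Run7.h867.MZ.tendsto_tr (adm_of hn hs)
  have h2 := Pool.Agent.H447R2.MZ.tendsto_H s (Run7.h53.TI.hw_adm (by rw [hw_same]; exact hs))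
  have h3 : Tendsto (fun N => Run7.h867.MZ.tr s (N + 1)) atTop (𝓝 (Run7.h867.MZ.mz s)) :=
    h1.comp (tendsto_add_atTop_nat 1)
  refine tendsto_nhds_unique h2 (h3.congr fun N => (H_same s N).symm)

theorem reverse_mem {n : ℕ} {s : List ℕ} : s.reverse ∈ Run7.h867.HW.hw n ↔ s ∈ Run7.h867.HW.hw n := by
  rw [Run7.h867.HW.mem_hw, Run7.h867.HW.mem_hw, List.sum_reverse]
  simp

open Classical in
theorem lyndon_card (r : ℕ → ℕ → Prop) (rev : Bool) (n : ℕ) :
    #((Run7.h867.HW.hw n).filter fun w => IsLyndon r (if rev then w.reverse else w)) = #(Run7.h867.HW.lw r n) := by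
  cases rev with
  | false => rfl
  | true =>
    have h : (Run7.h867.HW.hw n).filter (fun w => IsLyndon r (if true then w.reverse else w)) =
        (Run7.h867.HW.lw r n).image List.reverse := by
      ext w
      rw [mem_filter, mem_image]
      constructor
      · rintro ⟨h1, h2⟩
        refine ⟨w.reverse, ?_, List.reverse_reverse w⟩
        rw [Run7.h867.HW.lw, mem_filter]
        exact ⟨reverse_mem.2 h1, h2⟩
      · rintro ⟨v, hv, rfl⟩
        rw [Run7.h867.HW.lw, mem_filter] at hv
        refine ⟨reverse_mem.2 hv.1, ?_⟩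
        rw [if_pos rfl, List.reverse_reverse]
        exact hv.2
    rw [h, card_image_of_injective _ List.reverse_injective]

/-- there are `C` and `n₀` such that for both orders of the letters and both directions of reading the Lyndon words are at
least the proportion `1 / (10000 n)` of the words of weight `n ≥ n₀`, and a nonzero polynomial with real coefficients
vanishes at the multiple zeta values for a proportion at most `C deg(P) / (n √n)` of the tuples of words and
`C deg(P) / √n` of the tuples of Lyndon words of weights `k_1, ..., k_N ≥ n ≥ n₀` -/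
theorem result : (∀ n, (words n).Finite) ∧
    (∀ n : ℕ, 1 ≤ n → ∀ w ∈ words n, Tendsto (trunc w) atTop (𝓝 (zeta w))) ∧
    ∃ (C : ℝ) (n₀ : ℕ), 0 < C ∧
    ∀ r : ℕ → ℕ → Prop, (r = (fun a b => a < b) ∨ r = fun a b => b < a) → ∀ rev : Bool,
    (∀ n, n₀ ≤ n → 0 < (lyndon r rev n).ncard ∧ ((words n).ncard : ℝ) ≤ 10000 * n * (lyndon r rev n).ncard) ∧
    ∀ (N n : ℕ) (k : Fin N → ℕ), n₀ ≤ n → (∀ i, n ≤ k i) → ∀ P : MvPolynomial (Fin N) ℝ, P ≠ 0 →
      (({w : Fin N → List ℕ | (∀ i, w i ∈ words (k i)) ∧
          MvPolynomial.eval (fun i => zeta (w i)) P = 0}.ncard : ℕ) : ℝ) ≤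
        C * P.totalDegree / (n * √(n : ℝ)) * ∏ i, ((words (k i)).ncard : ℝ) ∧
      (({w : Fin N → List ℕ | (∀ i, w i ∈ lyndon r rev (k i)) ∧
          MvPolynomial.eval (fun i => zeta (w i)) P = 0}.ncard : ℕ) : ℝ) ≤
        C * P.totalDegree / √(n : ℝ) * ∏ i, ((lyndon r rev (k i)).ncard : ℝ) := by
  classical
  refine ⟨fun n => by rw [words_same]; exact Finset.finite_toSet _, ?_, ?_⟩
  · intro n hn w hw
    have h1 : trunc w = Run7.h867.MZ.tr w := funext (trunc_same w)
    rw [words_same, mem_coe] at hw
    rw [h1, zeta_same]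
    exact Run7.h867.MZ.tendsto_tr (adm_of hn hw)
  obtain ⟨C, hC, hcoin⟩ := Run7.h53.TI.coincidences
  have d2 : (2 : ℕ) ∈ Run7.h867.HW.D23 := by rw [Run7.h867.HW.mem_D23]; exact Or.inl rfl
  have d3 : (3 : ℕ) ∈ Run7.h867.HW.D23 := by rw [Run7.h867.HW.mem_D23]; exact Or.inr rfl
  obtain ⟨n1, h1⟩ := Run7.h867.HW.lw_lower (r := fun a b => a < b) (a := 2) (b := 3) (by norm_num) d2 d3 (by norm_num)
  obtain ⟨n2, h2⟩ := Run7.h867.HW.lw_lower (r := fun a b => b < a) (a := 3) (b := 2) (by norm_num) d3 d2 (by norm_num)
  refine ⟨10000 * C, n1 + n2 + 2, by positivity, ?_⟩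
  intro r hr rev
  have hlw : ∀ n, n1 + n2 + 2 ≤ n → (#(Run7.h867.HW.hw n) : ℝ) ≤ 10000 * n * #(Run7.h867.HW.lw r n) := by
    intro n hn
    rcases hr with rfl | rfl
    · exact h1 n (by omega)
    · exact h2 n (by omega)
  have hwc : ∀ n, (words n).ncard = #(Run7.h867.HW.hw n) := by
    intro n
    rw [words_same, Set.ncard_coe_finset]
  have hls : ∀ n, lyndon r rev n = (((Run7.h867.HW.hw n).filter fun w =>
      IsLyndon r (if rev then w.reverse else w) : Finset (List ℕ)) : Set (List ℕ)) := by
    intro n
    ext w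
    rw [mem_coe, mem_filter, lyndon, words_same]
    rfl
  have hlc : ∀ n, (lyndon r rev n).ncard = #(Run7.h867.HW.lw r n) := by
    intro n
    rw [hls, Set.ncard_coe_finset, lyndon_card]
  have hwpos : ∀ n, 2 ≤ n → 0 < #(Run7.h867.HW.hw n) := by
    intro n hn
    by_contra h0
    rw [not_lt, Nat.le_zero] at h0
    have h1 := Run7.h867.HW.hw_lower (n - 2)
    rw [show n - 2 + 2 = n by omega, h0, Nat.cast_zero, zero_mul] at h1
    have := Run7.h867.HW.rt_pos
    exact absurd h1 (not_le.2 (by positivity))
  have hlpos : ∀ n, n1 + n2 + 2 ≤ n → 0 < #(Run7.h867.HW.lw r n) := by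
    intro n hn
    by_contra h0
    rw [not_lt, Nat.le_zero] at h0
    have h1 := hlw n hn
    rw [h0, Nat.cast_zero, mul_zero] at h1
    have h2 := hwpos n (by omega)
    have h3 : (0 : ℝ) < #(Run7.h867.HW.hw n) := by exact_mod_cast h2
    linarith
  have hmono : ∀ n k : ℕ, 1 ≤ n → n ≤ k → C / (k * √(k : ℝ)) ≤ C / (n * √(n : ℝ)) := by
    intro n k hn hnk
    have h3 : (0 : ℝ) < n := by exact_mod_cast hn
    have h4 : (n : ℝ) ≤ k := by exact_mod_cast hnk
    have h5 : 0 < √(n : ℝ) := Real.sqrt_pos.2 h3
    have h6 : √(n : ℝ) ≤ √(k : ℝ) := Real.sqrt_le_sqrt h4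
    refine div_le_div_of_nonneg_left hC.le (by positivity) ?_
    exact mul_le_mul h4 h6 h5.le (by positivity)
  have hcoin' : ∀ k : ℕ, 1 ≤ k → ∀ v : ℝ, (#((Run7.h867.HW.hw k).filter fun w => zeta w = v) : ℝ) ≤
      C / (k * √(k : ℝ)) * #(Run7.h867.HW.hw k) := by
    intro k hk v
    have h3 := hcoin k hk v
    rw [hw_same] at h3
    refine le_trans (le_of_eq ?_) h3
    congr 2
    refine filter_congr fun w hw => ?_
    rw [zeta_same, val_same hk hw]
  refine ⟨fun n hn => ⟨?_, ?_⟩, ?_⟩
  · rw [hlc]; exact hlpos n hn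
  · rw [hlc, hwc]; exact hlw n hn
  intro N n k hn hk P hP
  have hn0 : (0 : ℝ) < n := by exact_mod_cast (by omega : 0 < n)
  have hsn : 0 < √(n : ℝ) := Real.sqrt_pos.2 hn0
  have hκ1 : 0 ≤ C / (n * √(n : ℝ)) := by positivity
  have hκ2 : 0 ≤ 10000 * C / √(n : ℝ) := by positivity
  constructor
  · have h3 := Run7.h867.HW.schwartz_zippel (C / (n * √(n : ℝ))) hκ1 N (fun i => Run7.h867.HW.hw (k i))
      (fun _ => zeta) (fun i v => (hcoin' (k i) (by have := hk i; omega) v).trans
        (mul_le_mul_of_nonneg_right (hmono n (k i) (by omega) (hk i)) (Nat.cast_nonneg _))) P hP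
    have e : {w : Fin N → List ℕ | (∀ i, w i ∈ words (k i)) ∧ MvPolynomial.eval (fun i => zeta (w i)) P = 0} =
        (((Fintype.piFinset fun i => Run7.h867.HW.hw (k i)).filter fun u =>
          MvPolynomial.eval (fun i => zeta (u i)) P = 0 : Finset (Fin N → List ℕ)) : Set (Fin N → List ℕ)) := by
      ext w
      rw [mem_coe, mem_filter, Fintype.mem_piFinset]
      simp only [words_same]
      rfl
    rw [e, Set.ncard_coe_finset]
    simp only [hwc]
    refine h3.trans ?_
    have hp : (0 : ℝ) ≤ ∏ i, (#(Run7.h867.HW.hw (k i)) : ℝ) := prod_nonneg fun i _ => Nat.cast_nonneg _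
    refine mul_le_mul_of_nonneg_right ?_ hp
    rw [mul_div_assoc', div_le_div_iff_of_pos_right (by positivity)]
    have : (0 : ℝ) ≤ P.totalDegree := Nat.cast_nonneg _
    nlinarith
  · have h3 := Run7.h867.HW.schwartz_zippel (10000 * C / √(n : ℝ)) hκ2 N
      (fun i => (Run7.h867.HW.hw (k i)).filter fun w => IsLyndon r (if rev then w.reverse else w))
      (fun _ => zeta) (fun i v => by
        have hki : n ≤ k i := hk i
        have hk1 : 1 ≤ k i := by omega
        have hkr : (0 : ℝ) < k i := by exact_mod_cast hk1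
        have hks : 0 < √(k i : ℝ) := Real.sqrt_pos.2 hkr
        rw [lyndon_card]
        have h4 : (#(((Run7.h867.HW.hw (k i)).filter fun w =>
            IsLyndon r (if rev then w.reverse else w)).filter fun w => zeta w = v) : ℝ) ≤
            #((Run7.h867.HW.hw (k i)).filter fun w => zeta w = v) := by
          rw [Nat.cast_le]
          refine card_le_card ?_
          intro w hw
          rw [mem_filter, mem_filter] at hw
          rw [mem_filter]
          exact ⟨hw.1.1, hw.2⟩
        calc _ ≤ _ := h4
          _ ≤ C / (k i * √(k i : ℝ)) * #(Run7.h867.HW.hw (k i)) := hcoin' (k i) hk1 v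
          _ ≤ C / (k i * √(k i : ℝ)) * (10000 * k i * #(Run7.h867.HW.lw r (k i))) :=
              mul_le_mul_of_nonneg_left (hlw (k i) (by omega)) (by positivity)
          _ = 10000 * C / √(k i : ℝ) * #(Run7.h867.HW.lw r (k i)) := by
              have hZ : ∀ Z : ℝ, C / (k i * √(k i : ℝ)) * (10000 * k i * Z) = 10000 * C / √(k i : ℝ) * Z := by
                intro Z
                field_simp
              exact hZ _
          _ ≤ 10000 * C / √(n : ℝ) * #(Run7.h867.HW.lw r (k i)) := by
              refine mul_le_mul_of_nonneg_right ?_ (Nat.cast_nonneg _)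
              refine div_le_div_of_nonneg_left (by positivity) hsn (Real.sqrt_le_sqrt ?_)
              exact_mod_cast hki) P hP
    have e : {w : Fin N → List ℕ | (∀ i, w i ∈ lyndon r rev (k i)) ∧
        MvPolynomial.eval (fun i => zeta (w i)) P = 0} =
        (((Fintype.piFinset fun i => (Run7.h867.HW.hw (k i)).filter fun w =>
          IsLyndon r (if rev then w.reverse else w)).filter fun u =>
          MvPolynomial.eval (fun i => zeta (u i)) P = 0 : Finset (Fin N → List ℕ)) : Set (Fin N → List ℕ)) := by
      ext w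
      rw [mem_coe, mem_filter, Fintype.mem_piFinset]
      simp only [hls]
      rfl
    rw [e, Set.ncard_coe_finset]
    simp only [hlc]
    refine h3.trans (le_of_eq ?_)
    simp only [lyndon_card]
    ring

end Pool.Agent.Results.MP_f3dc73_nt.PolynomialsAtLyndonWords
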