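import Mathlib
import Pool.Agent.Run7.h123.LC.JE

set_option autoImplicit false

/-!
# Predicting the joint digits of the odd zeta values

The page mentions Rivoal's theorem: the dimension of the space spanned by the odd zeta values up to
`ζ(n)` is at least `C log n`. We prove that the same order of magnitude occurs when the digits of these
numbers are to be predicted. Let `b ≥ 2` be any base. An automaton reads the vectors of the digits with
index `k = 0, 1, 2, …` of the numbers `ζ(j)`, `s < j ≤ K s` odd, and announces the next vector before it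
reads it. For large `K`, every odd `s` and every integer `D ≤ log K / 125` an automaton with `N` states
makes at least `D log (M / (N + 1)) - C` wrong announcements for the first `M` vectors, where `C` does not
depend on the automaton, on `N` and on `M`. This remains true if the automaton sees and announces only
the digits of a part of the numbers, with fewer than `e^(-31 D) √(K / log K)` numbers left out
(`√(K log log K / log K) / (10000 D)`, if `D ≤ log log K / 10000`).

Linear independence alone does not imply such a bound: there are arbitrarily many linearly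
independent numbers whose joint digits are predicted by an automaton with one state with
`O(log log M)` errors (lacunary expansions).

Proof. During a long run without errors the states of the automaton repeat, so that the sequence of
the vectors is periodic with a period at most `N`. Then there is an early repetition of a long block,
which gives good simultaneous approximations of the numbers by fractions with the denominator
`b^i' - b^i`. By the theorem on simultaneous approximation of the odd zeta values in windows
(`Pool.Agent.Run7.h123.LC.window_large`, a new choice of the parameters in `Run7.h795.UW.S_M2`) the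
lengths of the first `n` runs together are at most `C N (1 + 1 / D)^n`.
-/

namespace Pool.Agent.Results.MP_f3dc73_nt.PredictingJointDigits

/-- the digit with index `k + 1` after the point in the base `b` expansion of `x` -/
noncomputable def digit (b : ℕ) (x : ℝ) (k : ℕ) : ℤ := ⌊x * (b : ℝ) ^ (k + 1)⌋ % (b : ℤ)

/-- the zeta value `ζ(j) = ∑ 1 / n^j` -/
noncomputable def zeta (j : ℕ) : ℝ := ∑' n : ℕ, 1 / ((n : ℝ) + 1) ^ j

/-- the sequence of the vectors of the digits of the numbers `ζ(j)`, `j ∈ Y`, in base `b` -/
noncomputable def joint (b : ℕ) (Y : Finset ℕ) (k : ℕ) : Y → ℤ := fun j => digit b (zeta j) k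

/-- the odd `j`, `s < j ≤ K s`, which are not in `Y` -/
def missing (K s : ℕ) (Y : Finset ℕ) : Set ℕ := {j : ℕ | s < j ∧ j ≤ K * s ∧ Odd j ∧ j ∉ Y}

/-- `√(K log log K / log K) / (10000 D)` if `D ≤ log log K / 10000`, and `e^(-31 D) √(K / log K)` for the
other `D` -/
noncomputable def number (D K : ℕ) : ℝ :=
  if (D : ℝ) ≤ Real.log (Real.log K) / 10000 then
    Real.sqrt (K * Real.log (Real.log K) / Real.log K) / (10000 * D)
  else Real.exp (-(31 * D)) * Real.sqrt (K / Real.log K)

/-- A predictor with `N` states reads the letters of a sequence and announces the next letter. -/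
structure Predictor (A : Type) (N : ℕ) where
  /-- the first state -/
  start : Fin N
  /-- the next state -/
  next : Fin N → A → Fin N
  /-- the announced letter -/
  announce : Fin N → A

/-- the state before reading the letter with index `k` of `w` -/
def Predictor.state {A : Type} {N : ℕ} (P : Predictor A N) (w : ℕ → A) : ℕ → Fin N
  | 0 => P.start
  | k + 1 => P.next (P.state w k) (w k)

/-- the number of wrong announcements for the first `M` letters of `w` -/
noncomputable def Predictor.errors {A : Type} {N : ℕ} (P : Predictor A N) (w : ℕ → A) (M : ℕ) : ℕ :=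
  {k : ℕ | k < M ∧ P.announce (P.state w k) ≠ w k}.ncard

theorem window : ∃ K0 : ℕ, ∀ K ≥ K0, ∀ s : ℕ, Odd s → ∀ D : ℕ, 1 ≤ D →
    (D : ℝ) ≤ Real.log K / 125 → ∃ q0 : ℕ, ∀ q : ℕ, q0 ≤ q →
    number D K ≤ (Set.ncard {j : ℕ | s < j ∧ j ≤ K * s ∧ Odd j ∧ ∀ p : ℤ,
        (q : ℝ) ^ (-(1 / (D : ℝ))) ≤ |(q : ℝ) * zeta j - p|} : ℝ) := by
  obtain ⟨K1, h1⟩ := Run7.h795.UW.z_sim
  obtain ⟨K2, h2⟩ := Pool.Agent.Run7.h123.LC.window_large
  refine ⟨max K1 K2, fun K hK s hs D hD hDK => ?_⟩
  unfold number
  split_ifs with hD2
  · obtain ⟨q0, hq0⟩ := h1 K ((le_max_left _ _).trans hK) s hs D hD (by linarith)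
    refine ⟨q0, fun q hq => le_trans (le_of_eq ?_) (hq0 q hq)⟩
    ring
  · exact h2 K ((le_max_right _ _).trans hK) s hs D hD hDK

open Pool.Agent.Run7.h123.LC.JE in
theorem errors_eq {A : Type} {N : ℕ} (P : Predictor A N) (w : ℕ → A) (M : ℕ) :
    P.errors w M = ((⟨P.start, P.next, P.announce⟩ : Pr A N).wrong w M).card := by
  classical
  have h : ∀ k, P.state w k = (⟨P.start, P.next, P.announce⟩ : Pr A N).state w k := by
    intro k
    induction k with
    | zero => rfl
    | succ k ih =>
      show P.next (P.state w k) (w k) = P.next _ (w k)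
      rw [ih]
  unfold Predictor.errors
  rw [← Set.ncard_coe_finset]
  congr 1
  ext k
  simp only [Pr.wrong, Finset.coe_filter, Finset.mem_range, Set.mem_ofPred_eq, h]

/-- For all `K ≥ K₀` (`K₀` is absolute), all odd `s`, all integers `D`, `1 ≤ D ≤ log K / 125`, all bases
`b ≥ 2` and all finite sets `Y` which contain all but fewer than `number D K` of the odd `j`,
`s < j ≤ K s`, there is `C` such that for all `N` and `M` every predictor with `N` states makes at least
`D log (M / (N + 1)) - C` errors for the first `M` vectors of the base `b` digits of the numbers `ζ(j)`,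
`j ∈ Y`. -/
theorem result : ∃ K0 : ℕ, ∀ K ≥ K0, ∀ s : ℕ, Odd s → ∀ D : ℕ, 1 ≤ D → (D : ℝ) ≤ Real.log K / 125 →
    ∀ b : ℕ, 2 ≤ b → ∀ Y : Finset ℕ, ((missing K s Y).ncard : ℝ) < number D K →
      ∃ C : ℝ, ∀ (N : ℕ) (P : Predictor (Y → ℤ) N) (M : ℕ), 1 ≤ M →
        D * Real.log (M / (N + 1)) - C ≤ P.errors (joint b Y) M := by
  obtain ⟨K0, hK0⟩ := window
  refine ⟨K0, fun K hK s hs D hD hDK b hb Y hY => ?_⟩
  obtain ⟨q0, hq0⟩ := hK0 K hK s hs D hD hDK
  obtain ⟨m0, hm0⟩ := Pool.Agent.Run7.h123.LC.JD.sim_repeat hb (fun j : Y => zeta j) hD q0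
  have main : ∀ m ≥ m0, ∀ i i' : ℕ, i < i' → i' < D * m →
      ∃ l < m, joint b Y (i + l) ≠ joint b Y (i' + l) := by
    intro m hm i i' hi hi'
    by_contra hcon
    push Not at hcon
    obtain ⟨q, hq, hap⟩ := hm0 m hm i i' hi hi' fun l hl y => congrFun (hcon l hl) y
    have h1 := hq0 q hq
    have hsub : {j : ℕ | s < j ∧ j ≤ K * s ∧ Odd j ∧ ∀ p : ℤ,
        (q : ℝ) ^ (-(1 / (D : ℝ))) ≤ |(q : ℝ) * zeta j - p|} ⊆ missing K s Y := by
      rintro j ⟨a1, a2, a3, a4⟩
      refine ⟨a1, a2, a3, fun hj => ?_⟩
      obtain ⟨p, hp⟩ := hap ⟨j, hj⟩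
      exact absurd hp (not_lt.2 (a4 p))
    have hfin : (missing K s Y).Finite := (Set.finite_Iic (K * s)).subset fun _ hi => hi.2.1
    have h2 : ((Set.ncard {j : ℕ | s < j ∧ j ≤ K * s ∧ Odd j ∧ ∀ p : ℤ,
        (q : ℝ) ^ (-(1 / (D : ℝ))) ≤ |(q : ℝ) * zeta j - p|} : ℕ) : ℝ) ≤ (missing K s Y).ncard := by
      exact_mod_cast Set.ncard_le_ncard hsub hfin
    linarith
  refine ⟨D * Real.log ((D + 1) * (m0 + 1)) + 1, fun N P M hM => ?_⟩
  rw [errors_eq]
  exact Pool.Agent.Run7.h123.LC.JE.errors (joint b Y) hD main _ hM

end Pool.Agent.Results.MP_f3dc73_nt.PredictingJointDigits
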